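import Pool.Agent.U6.EK.Stm

/-!
Project EK, package LIM: the limit of the characteristic functions of normalised Poisson laws.
-/

set_option autoImplicit false

namespace Pool.Agent.U606.EK.LIM

open Finset Filter Topology Pool.Agent.U6.EK

theorem bound {θ : ℝ} (h : |θ| ≤ 1) :
    ‖Complex.exp (Complex.I * (θ : ℂ)) - 1 - Complex.I * θ + (θ : ℂ) ^ 2 / 2‖ ≤ |θ| ^ 3 := by
  have hx : ‖Complex.I * (θ : ℂ)‖ = |θ| := by
    rw [norm_mul, Complex.norm_I, one_mul, Complex.norm_real, Real.norm_eq_abs]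
  have h1 := Complex.exp_bound (x := Complex.I * (θ : ℂ)) (by rw [hx]; exact h) (n := 3)
    (by norm_num)
  rw [hx] at h1
  have h2 : ∑ m ∈ range 3, (Complex.I * (θ : ℂ)) ^ m / (m.factorial : ℂ) =
      1 + Complex.I * θ - (θ : ℂ) ^ 2 / 2 := by
    rw [sum_range_succ, sum_range_succ, sum_range_succ, sum_range_zero]
    simp only [Nat.factorial]
    push_cast
    have hI : Complex.I ^ 2 = -1 := Complex.I_sq
    linear_combination ((θ : ℂ) ^ 2 / 2) * hI
  rw [h2] at h1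
  have h3 : Complex.exp (Complex.I * (θ : ℂ)) - 1 - Complex.I * θ + (θ : ℂ) ^ 2 / 2 =
      Complex.exp (Complex.I * (θ : ℂ)) - (1 + Complex.I * θ - (θ : ℂ) ^ 2 / 2) := by ring
  rw [h3]
  refine h1.trans ?_
  have h4 : ((Nat.succ 3 : ℕ) : ℝ) * (((Nat.factorial 3 : ℕ) : ℝ) * ((3 : ℕ) : ℝ))⁻¹ ≤ 1 := by
    simp only [Nat.factorial]
    norm_num
  calc |θ| ^ 3 * (((Nat.succ 3 : ℕ) : ℝ) * (((Nat.factorial 3 : ℕ) : ℝ) * ((3 : ℕ) : ℝ))⁻¹)
      ≤ |θ| ^ 3 * 1 := mul_le_mul_of_nonneg_left h4 (by positivity)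
    _ = |θ| ^ 3 := mul_one _

theorem t_LIM : T_LIM := by
  intro μ hμ u
  have hs : Tendsto (fun n => Real.sqrt (μ n)) atTop atTop := Real.tendsto_sqrt_atTop.comp hμ
  -- the exponent
  have hw : Tendsto (fun n => (Complex.exp (Complex.I * ((u / Real.sqrt (μ n) : ℝ) : ℂ)) - 1) *
      ((μ n : ℝ) : ℂ) + -(Complex.I * ((u * Real.sqrt (μ n) : ℝ) : ℂ))) atTop
      (𝓝 (((-(u ^ 2) / 2 : ℝ) : ℂ))) := by
    rw [tendsto_iff_norm_sub_tendsto_zero]
    have hlim : Tendsto (fun n => |u| ^ 3 / Real.sqrt (μ n)) atTop (𝓝 0) :=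
      hs.const_div_atTop _
    refine squeeze_zero' (Eventually.of_forall fun n => norm_nonneg _) ?_ hlim
    filter_upwards [hμ.eventually (eventually_gt_atTop 0),
      hs.eventually (eventually_ge_atTop (|u| + 1))] with n h0 h1
    have hs0 : 0 < Real.sqrt (μ n) := Real.sqrt_pos.2 h0
    have hsq : Real.sqrt (μ n) ^ 2 = μ n := Real.sq_sqrt h0.le
    obtain ⟨s, hs'⟩ : ∃ s : ℝ, s = Real.sqrt (μ n) := ⟨_, rfl⟩
    rw [← hs'] at h1 hs0 hsq ⊢
    have hθ : |u / s| ≤ 1 := by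
      rw [abs_div, abs_of_pos hs0, div_le_one hs0]
      linarith
    have hb := bound hθ
    have hs0' : (s : ℂ) ≠ 0 := by exact_mod_cast hs0.ne'
    have e : (Complex.exp (Complex.I * ((u / s : ℝ) : ℂ)) - 1) * ((μ n : ℝ) : ℂ) +
        -(Complex.I * ((u * s : ℝ) : ℂ)) - ((-(u ^ 2) / 2 : ℝ) : ℂ) =
        ((s ^ 2 : ℝ) : ℂ) * (Complex.exp (Complex.I * ((u / s : ℝ) : ℂ)) - 1 -
          Complex.I * ((u / s : ℝ) : ℂ) + ((u / s : ℝ) : ℂ) ^ 2 / 2) := by
      rw [← hsq]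
      push_cast
      field_simp
      ring
    rw [e, norm_mul, Complex.norm_real, Real.norm_eq_abs, abs_of_pos (by positivity)]
    calc s ^ 2 * ‖Complex.exp (Complex.I * ((u / s : ℝ) : ℂ)) - 1 -
          Complex.I * ((u / s : ℝ) : ℂ) + ((u / s : ℝ) : ℂ) ^ 2 / 2‖
        ≤ s ^ 2 * |u / s| ^ 3 := mul_le_mul_of_nonneg_left hb (by positivity)
      _ = |u| ^ 3 / s := by
          rw [abs_div, abs_of_pos hs0]
          field_simp
  have hexp := (Complex.continuous_exp.tendsto _).comp hw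
  refine hexp.congr fun n => ?_
  simp only [Function.comp_apply]
  rw [Complex.exp_add]

end Pool.Agent.U606.EK.LIM
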